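import Pool.Agent.Helper52.NF.St3

set_option autoImplicit false

namespace Pool.Agent.Helper33.NF

open Pool.Agent.Helper52.NF Finset

open scoped Classical in
theorem hEVC : StEVC := by
  intro V _ G v c hc u
  rw [← Finset.sum_filter, Finset.sum_const, nsmul_eq_mul, mul_one]
  have hev : Even (c.edges.countP fun e => decide (u ∈ e)) :=
    (hc.isTrail.even_countP_edges_iff u).2 fun h => absurd rfl h
  have hcard : (Finset.filter (fun d : G.Dart => d.edge ∈ c.edges)
      (Finset.univ.filter (fun d : G.Dart => d.fst = u))).card =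
      c.edges.countP (fun e => decide (u ∈ e)) := by
    rw [List.countP_eq_length_filter]
    have hnd : (c.edges.filter (fun e => decide (u ∈ e))).Nodup := hc.isTrail.edges_nodup.filter _
    rw [← List.toFinset_card_of_nodup hnd]
    refine Finset.card_bij (fun d _ => d.edge) ?_ ?_ ?_
    · intro d hd
      rw [Finset.mem_filter, Finset.mem_filter] at hd
      rw [List.mem_toFinset, List.mem_filter]
      refine ⟨hd.2, ?_⟩
      rw [decide_eq_true_eq]
      rw [← hd.1.2]
      exact Sym2.mem_mk_left _ _
    · intro d hd d' hd' h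
      rw [Finset.mem_filter, Finset.mem_filter] at hd hd'
      rcases (SimpleGraph.dart_edge_eq_iff d d').1 h with h1 | h1
      · exact h1
      · exfalso
        have h2 : d.fst = d'.snd := by rw [h1]; rfl
        have h3 := d'.adj
        rw [hd'.1.2, ← h2, hd.1.2] at h3
        exact G.loopless.irrefl u h3
    · intro e he
      rw [List.mem_toFinset, List.mem_filter, decide_eq_true_eq] at he
      obtain ⟨he1, he2⟩ := he
      obtain ⟨w, rfl⟩ := he2
      have hadj : G.Adj u w := c.adj_of_mem_edges he1
      refine ⟨⟨(u, w), hadj⟩, ?_, rfl⟩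
      rw [Finset.mem_filter, Finset.mem_filter]
      exact ⟨⟨Finset.mem_univ _, rfl⟩, he1⟩
  have hcast := congrArg (Nat.cast : ℕ → ZMod 2) hcard
  refine Eq.trans hcast ?_
  exact (ZMod.natCast_eq_zero_iff_even).2 hev

end Pool.Agent.Helper33.NF
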